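import Mathlib

namespace Pool.Agent.Results.MP_709dca_mp.MirroredPairs

open Matrix
open scoped ComplexOrder Kronecker

/-- Operators on `ℂ^d ⊗ ℂ^d`, written as matrices in the product basis `e_i ⊗ e_k`, which is
indexed by pairs `(i, k)`. -/
abbrev Op (d : ℕ) := Matrix (Fin d × Fin d) (Fin d × Fin d) ℂ

/-- States: positive semidefinite matrices of trace one. -/
def IsState {ι : Type*} [Fintype ι] (ρ : Matrix ι ι ℂ) : Prop :=
  ρ.PosSemidef ∧ ρ.trace = 1

/-- Separable states: the convex combinations of product states `α ⊗ β`. -/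
def IsSeparable {d : ℕ} (σ : Op d) : Prop :=
  σ ∈ convexHull ℝ {τ : Op d | ∃ α β : Matrix (Fin d) (Fin d) ℂ,
    IsState α ∧ IsState β ∧ τ = α ⊗ₖ β}

/-- Entanglement witnesses. -/
def IsEW {d : ℕ} (W : Op d) : Prop :=
  W.IsHermitian ∧ (∀ σ, IsSeparable σ → 0 ≤ ((W * σ).trace).re) ∧
    ∃ ρ, IsState ρ ∧ ((W * ρ).trace).re < 0

/-- Optimal entanglement witnesses: no nonzero positive semidefinite operator, however small,
can be subtracted. -/
def IsOptimalEW {d : ℕ} (W : Op d) : Prop :=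
  IsEW W ∧ ¬ ∃ ε : ℝ, 0 < ε ∧ ∃ P : Op d, P.PosSemidef ∧ P ≠ 0 ∧ IsEW (W - ε • P)

/-- Mirrored pairs of optimal entanglement witnesses on `ℂ^d ⊗ ℂ^d`. -/
def IsMirroredOptimalPair {d : ℕ} (W M : Op d) : Prop :=
  IsOptimalEW W ∧ IsOptimalEW M ∧
    ∃ u : ℝ, W + M = u • ((1 : Matrix (Fin d) (Fin d) ℂ) ⊗ₖ (1 : Matrix (Fin d) (Fin d) ℂ))

/-- Partial transposition on the second factor. -/
def partialTranspose {d : ℕ} (Q : Op d) : Op d := Matrix.of fun p q => Q (p.1, q.2) (q.1, p.2)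

/-- Decomposable operators: `P + Q^Γ` with `P, Q ≥ 0`. -/
def IsDecomposable {d : ℕ} (W : Op d) : Prop :=
  ∃ P Q : Op d, P.PosSemidef ∧ Q.PosSemidef ∧ W = P + partialTranspose Q

section general

variable {d : ℕ}

/-- the product vector `a ⊗ b` -/
def pv (a b : Fin d → ℂ) : Fin d × Fin d → ℂ := fun p => a p.1 * b p.2

/-- the quadratic form -/
noncomputable def qf (W : Op d) (v : Fin d × Fin d → ℂ) : ℂ := star v ⬝ᵥ (W *ᵥ v)

lemma trace_rank1 (W : Op d) (v : Fin d × Fin d → ℂ) :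
    (W * vecMulVec v (star v)).trace = qf W v := by
  rw [Matrix.mul_vecMulVec, Matrix.trace_vecMulVec, qf, dotProduct_comm]

open scoped MatrixOrder in
lemma psd_factor {n : Type*} [Fintype n] [DecidableEq n] {A : Matrix n n ℂ}
    (hA : A.PosSemidef) : ∃ B : Matrix n n ℂ, A = Bᴴ * B :=
  CStarAlgebra.nonneg_iff_eq_star_mul_self.mp hA.nonneg

lemma sep_of_pv {W : Op d} (h : ∀ a b, 0 ≤ (qf W (pv a b)).re) :
    ∀ σ, IsSeparable σ → 0 ≤ ((W * σ).trace).re := by
  intro σ hσ
  have hc : Convex ℝ {σ : Op d | 0 ≤ ((W * σ).trace).re} := by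
    intro a ha b hb s t hs ht hst
    change 0 ≤ ((W * a).trace).re at ha
    change 0 ≤ ((W * b).trace).re at hb
    change 0 ≤ ((W * (s • a + t • b)).trace).re
    rw [mul_add, mul_smul_comm, mul_smul_comm, Matrix.trace_add, Matrix.trace_smul,
      Matrix.trace_smul]
    simp only [Complex.add_re, Complex.real_smul, Complex.mul_re, Complex.ofReal_re,
      Complex.ofReal_im, zero_mul, sub_zero]
    positivity
  have : σ ∈ {σ : Op d | 0 ≤ ((W * σ).trace).re} := by
    refine convexHull_min ?_ hc hσ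
    rintro τ ⟨α, β, ⟨hα, -⟩, ⟨hβ, -⟩, rfl⟩
    obtain ⟨B, rfl⟩ := psd_factor hα
    obtain ⟨C, rfl⟩ := psd_factor hβ
    change 0 ≤ ((W * _).trace).re
    rw [Matrix.mul_kronecker_mul, ← Matrix.conjTranspose_kronecker, ← mul_assoc,
      Matrix.trace_mul_comm, ← mul_assoc]
    rw [Matrix.trace, Complex.re_sum]
    refine Finset.sum_nonneg fun p _ => ?_
    have := h (star (B p.1)) (star (C p.2))
    have e : (((B ⊗ₖ C) * W * (B ⊗ₖ C)ᴴ).diag p) = qf W (pv (star (B p.1)) (star (C p.2))) := by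
      rw [Matrix.diag_apply, mul_assoc, Matrix.mul_apply, qf, dotProduct]
      refine Finset.sum_congr rfl fun q _ => ?_
      rw [Matrix.mul_apply, Matrix.mulVec, dotProduct]
      congr 1
      · simp [pv, Matrix.kroneckerMap_apply]
      · refine Finset.sum_congr rfl fun r _ => ?_
        simp [pv, Matrix.kroneckerMap_apply, Matrix.conjTranspose_apply]
    rw [e]
    exact this
  exact this

lemma norm_pos {ι : Type*} [Fintype ι] {v : ι → ℂ} (hv : v ≠ 0) :
    ∃ t : ℝ, 0 < t ∧ v ⬝ᵥ star v = (t : ℂ) := by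
  refine ⟨∑ i, ‖v i‖ ^ 2, ?_, ?_⟩
  · obtain ⟨i, hi⟩ := Function.ne_iff.mp hv
    refine Finset.sum_pos' (fun i _ => by positivity) ⟨i, Finset.mem_univ i, ?_⟩
    have : 0 < ‖v i‖ := norm_pos_iff.mpr hi
    positivity
  · rw [dotProduct]
    push_cast
    refine Finset.sum_congr rfl fun i _ => ?_
    rw [Pi.star_apply, Complex.star_def, Complex.mul_conj, Complex.normSq_eq_norm_sq]
    push_cast
    rfl

lemma state_rank1 {ι : Type*} [Fintype ι] {v : ι → ℂ} {t : ℝ} (ht : 0 < t)
    (h : v ⬝ᵥ star v = (t : ℂ)) : IsState ((t⁻¹ : ℝ) • vecMulVec v (star v)) := by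
  constructor
  · exact (Matrix.posSemidef_vecMulVec_self_star v).smul (inv_nonneg.mpr ht.le)
  · rw [Matrix.trace_smul, Matrix.trace_vecMulVec, h, Complex.real_smul]
    rw [← Complex.ofReal_mul, inv_mul_cancel₀ ht.ne']
    simp

lemma neg_of_vec {W : Op d} {v : Fin d × Fin d → ℂ} (h : (qf W v).re < 0) :
    ∃ ρ, IsState ρ ∧ ((W * ρ).trace).re < 0 := by
  have hv : v ≠ 0 := by
    rintro rfl
    simp [qf] at h
  obtain ⟨t, ht, hvt⟩ := norm_pos hv
  refine ⟨(t⁻¹ : ℝ) • vecMulVec v (star v), state_rank1 ht hvt, ?_⟩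
  rw [mul_smul_comm, Matrix.trace_smul, trace_rank1, Complex.real_smul, Complex.re_ofReal_mul]
  exact mul_neg_of_pos_of_neg (inv_pos.mpr ht) h

lemma pv_of_EW {W : Op d} (h : IsEW W) (a b : Fin d → ℂ) : 0 ≤ (qf W (pv a b)).re := by
  by_cases ha : a = 0
  · have : pv a b = 0 := by ext p; simp [pv, ha]
    rw [this]; simp [qf]
  by_cases hb : b = 0
  · have : pv a b = 0 := by ext p; simp [pv, hb]
    rw [this]; simp [qf]
  obtain ⟨s, hs, has⟩ := norm_pos ha
  obtain ⟨t, ht, hbt⟩ := norm_pos hb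
  have hsep : IsSeparable (((s⁻¹ : ℝ) • vecMulVec a (star a)) ⊗ₖ
      ((t⁻¹ : ℝ) • vecMulVec b (star b)) : Op d) :=
    subset_convexHull ℝ _ ⟨_, _, state_rank1 hs has, state_rank1 ht hbt, rfl⟩
  have := h.2.1 _ hsep
  have e : (((s⁻¹ : ℝ) • vecMulVec a (star a)) ⊗ₖ ((t⁻¹ : ℝ) • vecMulVec b (star b)) : Op d) =
      ((s⁻¹ * t⁻¹ : ℝ)) • vecMulVec (pv a b) (star (pv a b)) := by
    ext p q
    simp only [Matrix.kroneckerMap_apply, Matrix.smul_apply, vecMulVec_apply, pv, Pi.star_apply,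
      star_mul', Complex.real_smul]
    push_cast
    ring
  rw [e, mul_smul_comm, Matrix.trace_smul, trace_rank1, Complex.real_smul,
    Complex.re_ofReal_mul] at this
  exact nonneg_of_mul_nonneg_right this (by positivity)

lemma qf_sub_smul (W P : Op d) (ε : ℝ) (v : Fin d × Fin d → ℂ) :
    qf (W - ε • P) v = qf W v - ε * qf P v := by
  rw [qf, qf, qf, Matrix.sub_mulVec, Matrix.smul_mulVec, dotProduct_sub, dotProduct_smul,
    Complex.real_smul]

/-- The spanning criterion. -/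
lemma optimal_of {W : Op d} (hH : W.IsHermitian) (hpv : ∀ a b, 0 ≤ (qf W (pv a b)).re)
    {v : Fin d × Fin d → ℂ} (hv : (qf W v).re < 0)
    (hspan : ∀ K : Submodule ℂ (Fin d × Fin d → ℂ),
      (∀ a b, (qf W (pv a b)).re = 0 → pv a b ∈ K) → ∀ p, Pi.single p 1 ∈ K) :
    IsOptimalEW W := by
  refine ⟨⟨hH, sep_of_pv hpv, neg_of_vec hv⟩, ?_⟩
  rintro ⟨ε, hε, P, hP, hP0, hEW⟩
  apply hP0
  have key : ∀ a b, (qf W (pv a b)).re = 0 → pv a b ∈ LinearMap.ker (Matrix.mulVecLin P) := by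
    intro a b h0
    rw [LinearMap.mem_ker, Matrix.mulVecLin_apply]
    have h1 := pv_of_EW hEW a b
    rw [qf_sub_smul, Complex.sub_re, Complex.re_ofReal_mul, h0] at h1
    have h2 : 0 ≤ qf P (pv a b) := hP.dotProduct_mulVec_nonneg _
    have h3 := (Complex.le_def.mp h2)
    have h4 : (qf P (pv a b)).re ≤ 0 := by
      by_contra hcon
      push Not at hcon
      nlinarith
    have h5 : qf P (pv a b) = 0 := by
      apply Complex.ext
      · simp only [Complex.zero_re] at h3 ⊢
        linarith [h3.1]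
      · simpa using h3.2.symm
    exact (hP.dotProduct_mulVec_zero_iff _).mp h5
  have hall := hspan _ key
  ext p q
  have := hall q
  rw [LinearMap.mem_ker, Matrix.mulVecLin_apply] at this
  have h := congrFun this p
  simpa using h

end general

section construction

variable {d : ℕ}

/-- the class of a basis index: `true` for the first two indices, `false` for the others -/
def cl (i : Fin d) : Bool := decide (i.val < 2)

/-- the signs `ω i j`: equal to `-1` for the pair `{0, 2}`, and to `1` otherwise -/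
def om (i j : Fin d) : ℝ :=
  if (i.val = 0 ∧ j.val = 2) ∨ (i.val = 2 ∧ j.val = 0) then -1 else 1

/-- the operator `∑ ω i j E i j ⊗ E i j` over the pairs of indices of different classes -/
noncomputable def KK (d : ℕ) : Op d := Matrix.of fun p q =>
  if p.1 = p.2 ∧ q.1 = q.2 ∧ cl p.1 ≠ cl q.1 then (om p.1 q.1 : ℂ) else 0

/-- the witness `W` -/
noncomputable def Wt (d : ℕ) : Op d :=
  Matrix.diagonal (fun p => if cl p.1 = cl p.2 then 1 else 0) - KK d

/-- the witness `M` -/
noncomputable def Mt (d : ℕ) : Op d :=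
  Matrix.diagonal (fun p => if cl p.1 ≠ cl p.2 then 1 else 0) + KK d

/-- partial norms -/
noncomputable def SS (c : Bool) (a : Fin d → ℂ) : ℝ := ∑ i, if cl i = c then ‖a i‖ ^ 2 else 0

/-- the mixed form -/
noncomputable def KS (a b : Fin d → ℂ) : ℂ :=
  ∑ i, ∑ j, if cl i ≠ cl j then (om i j : ℂ) * (star (a i * b i) * (a j * b j)) else 0

lemma qf_add (A B : Op d) (v) : qf (A + B) v = qf A v + qf B v := by
  rw [qf, qf, qf, Matrix.add_mulVec, dotProduct_add]

lemma qf_sub (A B : Op d) (v) : qf (A - B) v = qf A v - qf B v := by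
  rw [qf, qf, qf, Matrix.sub_mulVec, dotProduct_sub]

lemma qf_diag (f : Fin d × Fin d → ℂ) (v) :
    qf (Matrix.diagonal f) v = ∑ p, f p * (star (v p) * v p) := by
  rw [qf, dotProduct]
  refine Finset.sum_congr rfl fun p _ => ?_
  rw [Matrix.mulVec_diagonal, Pi.star_apply]
  ring

lemma qf_K (a b : Fin d → ℂ) : qf (KK d) (pv a b) = KS a b := by
  rw [qf, dotProduct, KS, Fintype.sum_prod_type]
  refine Finset.sum_congr rfl fun i _ => ?_
  rw [Finset.sum_eq_single i]
  · rw [Matrix.mulVec, dotProduct, Fintype.sum_prod_type, Finset.mul_sum]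
    refine Finset.sum_congr rfl fun j _ => ?_
    rw [Finset.sum_eq_single j]
    · simp only [KK, Matrix.of_apply, pv, Pi.star_apply, true_and]
      split_ifs <;> ring
    · intro k _ hk
      simp only [KK, Matrix.of_apply]
      rw [if_neg]
      · simp
      · rintro ⟨_, h, _⟩
        exact hk h.symm
    · simp
  · intro k _ hk
    rw [Matrix.mulVec, dotProduct, Finset.sum_eq_zero]
    · simp
    · intro q _
      simp only [KK, Matrix.of_apply]
      rw [if_neg]
      · simp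
      · rintro ⟨h, _, _⟩
        exact hk h.symm
  · simp

lemma star_mul_self_re (z : ℂ) : star z * z = ((‖z‖ ^ 2 : ℝ) : ℂ) := by
  rw [mul_comm, Complex.star_def, Complex.mul_conj, Complex.normSq_eq_norm_sq]

lemma same_sum (a b : Fin d → ℂ) :
    (qf (Matrix.diagonal (fun p : Fin d × Fin d => if cl p.1 = cl p.2 then (1 : ℂ) else 0))
      (pv a b)) = ((SS true a * SS true b + SS false a * SS false b : ℝ) : ℂ) := by
  rw [qf_diag, Fintype.sum_prod_type, SS, SS, SS, SS, Finset.sum_mul_sum, Finset.sum_mul_sum,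
    ← Finset.sum_add_distrib]
  push_cast
  refine Finset.sum_congr rfl fun i _ => ?_
  rw [← Finset.sum_add_distrib]
  refine Finset.sum_congr rfl fun k _ => ?_
  rw [star_mul_self_re]
  simp only [pv, norm_mul]
  cases hi : cl i <;> cases hk : cl k <;> simp [mul_pow]

lemma diff_sum (a b : Fin d → ℂ) :
    (qf (Matrix.diagonal (fun p : Fin d × Fin d => if cl p.1 ≠ cl p.2 then (1 : ℂ) else 0))
      (pv a b)) = ((SS true a * SS false b + SS false a * SS true b : ℝ) : ℂ) := by
  rw [qf_diag, Fintype.sum_prod_type, SS, SS, SS, SS, Finset.sum_mul_sum, Finset.sum_mul_sum,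
    ← Finset.sum_add_distrib]
  push_cast
  refine Finset.sum_congr rfl fun i _ => ?_
  rw [← Finset.sum_add_distrib]
  refine Finset.sum_congr rfl fun k _ => ?_
  rw [star_mul_self_re]
  simp only [pv, norm_mul]
  cases hi : cl i <;> cases hk : cl k <;> simp [mul_pow]

lemma qf_W (a b : Fin d → ℂ) : (qf (Wt d) (pv a b)).re =
    SS true a * SS true b + SS false a * SS false b - (KS a b).re := by
  rw [Wt, qf_sub, same_sum, qf_K, Complex.sub_re, Complex.ofReal_re]

lemma qf_M (a b : Fin d → ℂ) : (qf (Mt d) (pv a b)).re =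
    SS true a * SS false b + SS false a * SS true b + (KS a b).re := by
  rw [Mt, qf_add, diff_sum, qf_K, Complex.add_re, Complex.ofReal_re]

/-- partial sums of the moduli of `a i b i` -/
noncomputable def XX (c : Bool) (a b : Fin d → ℂ) : ℝ :=
  ∑ i, if cl i = c then ‖a i‖ * ‖b i‖ else 0

lemma om_abs (i j : Fin d) : |om i j| = 1 := by
  rw [om]; split_ifs <;> simp

lemma KS_bound (a b : Fin d → ℂ) : ‖KS a b‖ ≤ 2 * (XX true a b * XX false a b) := by
  have e : 2 * (XX true a b * XX false a b) =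
      ∑ i, ∑ j : Fin d, if cl i ≠ cl j then (‖a i‖ * ‖b i‖) * (‖a j‖ * ‖b j‖) else 0 := by
    have : 2 * (XX true a b * XX false a b) =
        XX true a b * XX false a b + XX false a b * XX true a b := by ring
    rw [this, XX, XX, Finset.sum_mul_sum, Finset.sum_mul_sum, ← Finset.sum_add_distrib]
    refine Finset.sum_congr rfl fun i _ => ?_
    rw [← Finset.sum_add_distrib]
    refine Finset.sum_congr rfl fun k _ => ?_
    cases hi : cl i <;> cases hk : cl k <;> simp
  rw [e, KS]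
  refine (norm_sum_le _ _).trans (Finset.sum_le_sum fun i _ => ?_)
  refine (norm_sum_le _ _).trans (Finset.sum_le_sum fun j _ => ?_)
  split_ifs with h
  · rw [norm_mul, norm_mul, norm_star, norm_mul, norm_mul, Complex.norm_real, Real.norm_eq_abs,
      om_abs, one_mul]
  · simp

lemma XX_sq (c : Bool) (a b : Fin d → ℂ) : XX c a b ^ 2 ≤ SS c a * SS c b := by
  have h := Finset.sum_mul_sq_le_sq_mul_sq (Finset.univ : Finset (Fin d))
    (fun i => if cl i = c then ‖a i‖ else 0) (fun i => if cl i = c then ‖b i‖ else 0)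
  have e1 : XX c a b = ∑ i : Fin d, (if cl i = c then ‖a i‖ else 0) *
      (if cl i = c then ‖b i‖ else 0) := by
    rw [XX]; refine Finset.sum_congr rfl fun i _ => ?_
    split_ifs <;> simp
  have e2 : ∀ a : Fin d → ℂ, SS c a = ∑ i : Fin d, (if cl i = c then ‖a i‖ else 0) ^ 2 := by
    intro a
    rw [SS]; refine Finset.sum_congr rfl fun i _ => ?_
    split_ifs <;> simp
  rw [e1, e2 a, e2 b]
  exact h

lemma XX_nonneg (c : Bool) (a b : Fin d → ℂ) : 0 ≤ XX c a b :=
  Finset.sum_nonneg fun i _ => by split_ifs <;> positivity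

lemma SS_nonneg (c : Bool) (a : Fin d → ℂ) : 0 ≤ SS c a :=
  Finset.sum_nonneg fun i _ => by split_ifs <;> positivity

lemma W_pos (a b : Fin d → ℂ) : 0 ≤ (qf (Wt d) (pv a b)).re := by
  rw [qf_W]
  have h1 := KS_bound a b
  have h2 := Complex.abs_re_le_norm (KS a b)
  have h3 := le_abs_self (KS a b).re
  have h4 := XX_sq true a b
  have h5 := XX_sq false a b
  nlinarith [sq_nonneg (XX true a b - XX false a b)]

lemma M_pos (a b : Fin d → ℂ) : 0 ≤ (qf (Mt d) (pv a b)).re := by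
  rw [qf_M]
  have h1 := KS_bound a b
  have h2 := Complex.abs_re_le_norm (KS a b)
  have h3 := neg_abs_le (KS a b).re
  have h4 := XX_sq true a b
  have h5 := XX_sq false a b
  have p1 := SS_nonneg true a
  have p2 := SS_nonneg true b
  have p3 := SS_nonneg false a
  have p4 := SS_nonneg false b
  have q1 := XX_nonneg true a b
  have q2 := XX_nonneg false a b
  set A := SS true a
  set B := SS true b
  set C := SS false a
  set D := SS false b
  set x := XX true a b
  set y := XX false a b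
  have h6 : (x * y) ^ 2 ≤ (A * B) * (C * D) := by
    rw [mul_pow]
    exact mul_le_mul h4 h5 (by positivity) (by positivity)
  have h7 : 2 * (x * y) ≤ A * D + C * B := by
    have hs : 0 ≤ A * D + C * B := by positivity
    refine abs_le_of_sq_le_sq' ?_ hs |>.2
    nlinarith [sq_nonneg (A * D - C * B)]
  linarith

/-- basis vector -/
def e (p : Fin d) : Fin d → ℂ := Pi.single p 1

/-- three-term vector -/
def tri (p q r : Fin d) (x y z : ℂ) : Fin d → ℂ := fun k => x * e p k + y * e q k + z * e r k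

lemma e_same (p : Fin d) : e p p = 1 := by simp [e]
lemma e_ne {p k : Fin d} (h : k ≠ p) : e p k = 0 := by simp [e, Pi.single_apply, h]

section tri

variable {p q r : Fin d} (hpq : p ≠ q) (hpr : p ≠ r) (hqr : q ≠ r)

include hpq hpr hqr

lemma tri_p (x y z : ℂ) : tri p q r x y z p = x := by
  simp [tri, e_same, e_ne hpq, e_ne hpr]
lemma tri_q (x y z : ℂ) : tri p q r x y z q = y := by
  simp [tri, e_same, e_ne hpq.symm, e_ne hqr]
lemma tri_r (x y z : ℂ) : tri p q r x y z r = z := by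
  simp [tri, e_same, e_ne hpr.symm, e_ne hqr.symm]

omit hpq hpr hqr in
lemma tri_o (x y z : ℂ) {k : Fin d} (h1 : k ≠ p) (h2 : k ≠ q) (h3 : k ≠ r) :
    tri p q r x y z k = 0 := by
  simp [tri, e_ne h1, e_ne h2, e_ne h3]

lemma sum3 {M : Type*} [AddCommMonoid M] (F : Fin d → M)
    (h : ∀ k, k ≠ p → k ≠ q → k ≠ r → F k = 0) : ∑ k, F k = F p + F q + F r := by
  rw [← Finset.sum_subset (Finset.subset_univ ({p, q, r} : Finset (Fin d)))]
  · rw [Finset.sum_insert (by simp [hpq, hpr]), Finset.sum_insert (by simp [hqr]),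
      Finset.sum_singleton, add_assoc]
  · intro k _ hk
    simp only [Finset.mem_insert, Finset.mem_singleton, not_or] at hk
    exact h k hk.1 hk.2.1 hk.2.2

lemma SS_tri (x y z : ℂ) (c : Bool) : SS c (tri p q r x y z) =
    (if cl p = c then ‖x‖ ^ 2 else 0) + (if cl q = c then ‖y‖ ^ 2 else 0) +
      (if cl r = c then ‖z‖ ^ 2 else 0) := by
  rw [SS, sum3 hpq hpr hqr, tri_p hpq hpr hqr, tri_q hpq hpr hqr, tri_r hpq hpr hqr]
  intro k h1 h2 h3
  rw [tri_o x y z h1 h2 h3]
  simp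

lemma KS_tri (x y z x' y' z' : ℂ) (h1 : cl p = cl q) (h2 : cl p ≠ cl r) :
    KS (tri p q r x y z) (tri p q r x' y' z') =
      (om p r : ℂ) * (star (x * x') * (z * z')) + (om q r : ℂ) * (star (y * y') * (z * z')) +
      ((om r p : ℂ) * (star (z * z') * (x * x')) + (om r q : ℂ) * (star (z * z') * (y * y'))) := by
  have h3 : cl q ≠ cl r := h1 ▸ h2
  rw [KS, sum3 hpq hpr hqr, sum3 hpq hpr hqr, sum3 hpq hpr hqr, sum3 hpq hpr hqr]
  · simp only [tri_p hpq hpr hqr, tri_q hpq hpr hqr, tri_r hpq hpr hqr]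
    simp only [h2, h1, h3, h2.symm, h3.symm, ne_eq, not_true_eq_false, not_false_eq_true,
      if_true, if_false]
    ring
  all_goals
    intro k g1 g2 g3
    simp [tri_o _ _ _ g1 g2 g3]

end tri

lemma om_symm (i j : Fin d) : om i j = om j i := by
  rw [om, om]
  congr 1
  apply propext
  tauto

/-- values of the form of `W` on three-term vectors, with two terms in one class and one in the
other -/
lemma qfW_tri {p q r : Fin d} (hpq : p ≠ q) (h1 : cl p = cl q) (h2 : cl p ≠ cl r)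
    (x y z x' y' z' : ℂ) :
    (qf (Wt d) (pv (tri p q r x y z) (tri p q r x' y' z'))).re =
      (‖x‖ ^ 2 + ‖y‖ ^ 2) * (‖x'‖ ^ 2 + ‖y'‖ ^ 2) + ‖z‖ ^ 2 * ‖z'‖ ^ 2 -
      2 * (om p r * (star (x * x') * (z * z')).re + om q r * (star (y * y') * (z * z')).re) := by
  have hpr : p ≠ r := fun h => h2 (by rw [h])
  have hqr : q ≠ r := fun h => h2 (by rw [h1, h])
  rw [qf_W, SS_tri hpq hpr hqr, SS_tri hpq hpr hqr, SS_tri hpq hpr hqr, SS_tri hpq hpr hqr,
    KS_tri hpq hpr hqr _ _ _ _ _ _ h1 h2, om_symm r p, om_symm r q]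
  simp only [Complex.add_re, Complex.re_ofReal_mul]
  have t : ∀ u v : ℂ, (star u * v).re = (star v * u).re := by
    intro u v
    simp [Complex.mul_re]
    ring
  rw [t (z * z') (x * x'), t (z * z') (y * y')]
  cases hp : cl p <;> cases hr : cl r <;> rw [hp] at h1 h2 <;> simp_all <;> ring

lemma qfM_tri {p q r : Fin d} (hpq : p ≠ q) (h1 : cl p = cl q) (h2 : cl p ≠ cl r)
    (x y z x' y' z' : ℂ) :
    (qf (Mt d) (pv (tri p q r x y z) (tri p q r x' y' z'))).re =
      (‖x‖ ^ 2 + ‖y‖ ^ 2) * ‖z'‖ ^ 2 + ‖z‖ ^ 2 * (‖x'‖ ^ 2 + ‖y'‖ ^ 2) +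
      2 * (om p r * (star (x * x') * (z * z')).re + om q r * (star (y * y') * (z * z')).re) := by
  have hpr : p ≠ r := fun h => h2 (by rw [h])
  have hqr : q ≠ r := fun h => h2 (by rw [h1, h])
  rw [qf_M, SS_tri hpq hpr hqr, SS_tri hpq hpr hqr, SS_tri hpq hpr hqr, SS_tri hpq hpr hqr,
    KS_tri hpq hpr hqr _ _ _ _ _ _ h1 h2, om_symm r p, om_symm r q]
  simp only [Complex.add_re, Complex.re_ofReal_mul]
  have t : ∀ u v : ℂ, (star u * v).re = (star v * u).re := by
    intro u v
    simp [Complex.mul_re]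
    ring
  rw [t (z * z') (x * x'), t (z * z') (y * y')]
  cases hp : cl p <;> cases hr : cl r <;> rw [hp] at h1 h2 <;> simp_all <;> ring

lemma single_pv (i k : Fin d) : (Pi.single (i, k) 1 : Fin d × Fin d → ℂ) = pv (e i) (e k) := by
  ext ⟨x, y⟩
  simp only [pv, e, Pi.single_apply, Prod.mk.injEq]
  split_ifs <;> simp_all

lemma exists_mate (hd : 4 ≤ d) (p : Fin d) : ∃ q : Fin d, p ≠ q ∧ cl p = cl q := by
  by_cases h0 : p.val = 0
  · exact ⟨⟨1, by omega⟩, fun h => by simp [Fin.ext_iff, h0] at h, by simp [cl, h0]⟩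
  by_cases h1 : p.val = 1
  · exact ⟨⟨0, by omega⟩, fun h => by simp [Fin.ext_iff, h1] at h, by simp [cl, h1]⟩
  by_cases h2 : p.val = 2
  · exact ⟨⟨3, by omega⟩, fun h => by simp [Fin.ext_iff, h2] at h, by simp [cl, h2]⟩
  · refine ⟨⟨2, by omega⟩, fun h => h2 (by simp [Fin.ext_iff] at h; exact h), ?_⟩
    have : ¬ p.val < 2 := by omega
    simp [cl, this]

section spanW

variable (hd : 4 ≤ d) {K : Submodule ℂ (Fin d × Fin d → ℂ)}
  (hK : ∀ a b, (qf (Wt d) (pv a b)).re = 0 → pv a b ∈ K)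

include hd hK

lemma W1 {p r : Fin d} (h : cl p ≠ cl r) : pv (e p) (e r) ∈ K := by
  obtain ⟨q, hpq, h1⟩ := exists_mate hd p
  have hh : pv (e p) (e r) = pv (tri p q r 1 0 0) (tri p q r 0 0 1) := by
    ext ⟨x, y⟩
    simp [pv, tri]
  rw [hh]
  apply hK
  rw [qfW_tri hpq h1 h]
  simp

lemma W2 {p r : Fin d} (h : cl p ≠ cl r) :
    pv (e p) (e p) + (om p r : ℂ) • pv (e r) (e r) ∈ K := by
  obtain ⟨q, hpq, h1⟩ := exists_mate hd p
  have hh : pv (e p) (e p) + (om p r : ℂ) • pv (e r) (e r) =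
      pv (tri p q r 1 0 1) (tri p q r 1 0 (om p r)) - (om p r : ℂ) • pv (e p) (e r) -
        pv (e r) (e p) := by
    ext ⟨x, y⟩
    simp only [pv, tri, Pi.add_apply, Pi.sub_apply, Pi.smul_apply, smul_eq_mul]
    ring
  rw [hh]
  refine K.sub_mem (K.sub_mem (hK _ _ ?_) (K.smul_mem _ (W1 hd hK h))) (W1 hd hK h.symm)
  rw [qfW_tri hpq h1 h]
  have := om_abs p r
  have h2 : om p r * om p r = 1 := by
    rw [← abs_mul_abs_self, this]; norm_num
  simp [this]
  nlinarith

lemma W3 {p q r : Fin d} (hpq : p ≠ q) (h1 : cl p = cl q) (h2 : cl p ≠ cl r)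
    (o1 : om p r = 1) (o2 : om q r = 1) : pv (e p) (e q) ∈ K := by
  have hv : ∀ s : ℂ, ‖s‖ = 1 → pv (tri p q r 1 s 1) (tri p q r 1 (star s) 2) ∈ K := by
    intro s hs
    apply hK
    rw [qfW_tri hpq h1 h2, o1, o2]
    have e1 : s * star s = 1 := by
      rw [Complex.star_def, Complex.mul_conj, Complex.normSq_eq_norm_sq, hs]; norm_num
    rw [e1]
    simp [hs]
    norm_num
  have a1 := hv 1 (by simp)
  have a2 := hv (-1) (by simp)
  have a3 := hv Complex.I (by simp)
  have a4 := hv (-Complex.I) (by simp)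
  have h2' : cl q ≠ cl r := h1 ▸ h2
  have b := W1 hd hK (p := r) (r := q) h2'.symm
  have hh : pv (e p) (e q) = (1 / 4 : ℂ) • ((pv (tri p q r 1 1 1) (tri p q r 1 (star 1) 2) -
      pv (tri p q r 1 (-1) 1) (tri p q r 1 (star (-1)) 2)) +
      Complex.I • (pv (tri p q r 1 Complex.I 1) (tri p q r 1 (star Complex.I) 2) -
      pv (tri p q r 1 (-Complex.I) 1) (tri p q r 1 (star (-Complex.I)) 2))) -
      pv (e r) (e q) := by
    ext ⟨x, y⟩
    simp only [pv, tri, Pi.add_apply, Pi.sub_apply, Pi.smul_apply, smul_eq_mul, star_one,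
      star_neg, Complex.star_def, Complex.conj_I]
    linear_combination ((e p x * e q y) / 2 - (e q x * e p y) / 2 - e q x * e r y
      + (e r x * e q y) / 2) * Complex.I_sq
  rw [hh]
  exact K.sub_mem (K.smul_mem _ (K.add_mem (K.sub_mem a1 a2) (K.smul_mem _ (K.sub_mem a3 a4)))) b

end spanW

/-- the first four indices -/
def ix (hd : 4 ≤ d) (k : ℕ) (hk : k < 4) : Fin d := ⟨k, by omega⟩

lemma span_W (hd : 4 ≤ d) (K : Submodule ℂ (Fin d × Fin d → ℂ))
    (hK : ∀ a b, (qf (Wt d) (pv a b)).re = 0 → pv a b ∈ K) (p : Fin d × Fin d) :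
    (Pi.single p 1 : Fin d × Fin d → ℂ) ∈ K := by
  set i0 := ix hd 0 (by norm_num) with hi0
  set i1 := ix hd 1 (by norm_num) with hi1
  set i2 := ix hd 2 (by norm_num) with hi2
  set i3 := ix hd 3 (by norm_num) with hi3
  have c0 : cl i0 = true := by simp [cl, hi0, ix]
  have c1 : cl i1 = true := by simp [cl, hi1, ix]
  have c2 : cl i2 = false := by simp [cl, hi2, ix]
  have c3 : cl i3 = false := by simp [cl, hi3, ix]
  have o02 : om i0 i2 = -1 := by simp [om, hi0, hi2, ix]
  have o03 : om i0 i3 = 1 := by simp [om, hi0, hi3, ix]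
  have o1 : ∀ j, om i1 j = 1 := by intro j; simp [om, hi1, ix]
  have o3 : ∀ j, om j i3 = 1 := by intro j; simp [om, hi3, ix]
  have w02 := W2 hd hK (p := i0) (r := i2) (by rw [c0, c2]; decide)
  have w03 := W2 hd hK (p := i0) (r := i3) (by rw [c0, c3]; decide)
  have w12 := W2 hd hK (p := i1) (r := i2) (by rw [c1, c2]; decide)
  have w13 := W2 hd hK (p := i1) (r := i3) (by rw [c1, c3]; decide)
  rw [o02] at w02
  rw [o3] at w03 w13
  rw [o1] at w12
  have d0 : pv (e i0) (e i0) ∈ K := by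
    have : pv (e i0) (e i0) = (1 / 2 : ℂ) • (((pv (e i0) (e i0) + ((-1 : ℝ) : ℂ) • pv (e i2) (e i2)) +
        (pv (e i1) (e i1) + ((1 : ℝ) : ℂ) • pv (e i2) (e i2))) +
        ((pv (e i0) (e i0) + ((1 : ℝ) : ℂ) • pv (e i3) (e i3)) -
        (pv (e i1) (e i1) + ((1 : ℝ) : ℂ) • pv (e i3) (e i3)))) := by
      ext ⟨x, y⟩
      simp only [pv, Pi.add_apply, Pi.sub_apply, Pi.smul_apply, smul_eq_mul]
      push_cast
      ring
    rw [this]
    exact K.smul_mem _ (K.add_mem (K.add_mem w02 w12) (K.sub_mem w03 w13))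
  have d1 : pv (e i1) (e i1) ∈ K := by
    have : pv (e i1) (e i1) = (1 / 2 : ℂ) • (((pv (e i0) (e i0) + ((-1 : ℝ) : ℂ) • pv (e i2) (e i2)) +
        (pv (e i1) (e i1) + ((1 : ℝ) : ℂ) • pv (e i2) (e i2))) -
        ((pv (e i0) (e i0) + ((1 : ℝ) : ℂ) • pv (e i3) (e i3)) -
        (pv (e i1) (e i1) + ((1 : ℝ) : ℂ) • pv (e i3) (e i3)))) := by
      ext ⟨x, y⟩
      simp only [pv, Pi.add_apply, Pi.sub_apply, Pi.smul_apply, smul_eq_mul]
      push_cast
      ring
    rw [this]
    exact K.smul_mem _ (K.sub_mem (K.add_mem w02 w12) (K.sub_mem w03 w13))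
  have dj : ∀ j, cl j = false → pv (e j) (e j) ∈ K := by
    intro j hj
    have w1j := W2 hd hK (p := i1) (r := j) (by rw [c1, hj]; decide)
    rw [o1] at w1j
    have : pv (e j) (e j) = (pv (e i1) (e i1) + ((1 : ℝ) : ℂ) • pv (e j) (e j)) -
        pv (e i1) (e i1) := by
      ext ⟨x, y⟩
      simp only [pv, Pi.add_apply, Pi.sub_apply, Pi.smul_apply, smul_eq_mul]
      push_cast
      ring
    rw [this]
    exact K.sub_mem w1j d1
  obtain ⟨x, y⟩ := p
  rw [single_pv]
  by_cases hxy : cl x = cl y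
  · by_cases hx : x = y
    · subst hx
      by_cases h0 : x = i0
      · rw [h0]; exact d0
      by_cases h1 : x = i1
      · rw [h1]; exact d1
      refine dj x ?_
      simp only [cl, decide_eq_false_iff_not, not_lt]
      by_contra hcon
      push Not at hcon
      have : x.val = 0 ∨ x.val = 1 := by omega
      rcases this with h | h
      · exact h0 (Fin.ext h)
      · exact h1 (Fin.ext h)
    · cases hc : cl x
      · refine W3 hd hK (r := i1) hx hxy (by rw [hc, c1]; decide) ?_ ?_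
        · rw [om_symm]; exact o1 _
        · rw [om_symm]; exact o1 _
      · exact W3 hd hK (r := i3) hx hxy (by rw [hc, c3]; decide) (o3 _) (o3 _)
  · exact W1 hd hK hxy

section spanM

variable (hd : 4 ≤ d) {K : Submodule ℂ (Fin d × Fin d → ℂ)}
  (hK : ∀ a b, (qf (Mt d) (pv a b)).re = 0 → pv a b ∈ K)

include hd hK

lemma exists_other (p : Fin d) : ∃ r : Fin d, cl p ≠ cl r := by
  by_cases h : p.val < 2
  · exact ⟨⟨2, by omega⟩, by simp [cl, h]⟩
  · exact ⟨⟨0, by omega⟩, by simp [cl, h]⟩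

lemma M1 {p q : Fin d} (h : cl p = cl q) : pv (e p) (e q) ∈ K := by
  obtain ⟨r, hr⟩ := exists_other hd hK p
  by_cases hpq : p = q
  · subst hpq
    obtain ⟨q, hpq, h1⟩ := exists_mate hd p
    have hh : pv (e p) (e p) = pv (tri p q r 1 0 0) (tri p q r 1 0 0) := by
      ext ⟨x, y⟩
      simp [pv, tri]
    rw [hh]
    apply hK
    rw [qfM_tri hpq h1 hr]
    simp
  · have hh : pv (e p) (e q) = pv (tri p q r 1 0 0) (tri p q r 0 1 0) := by
      ext ⟨x, y⟩
      simp [pv, tri]
    rw [hh]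
    apply hK
    rw [qfM_tri hpq h hr]
    simp

lemma M2 {p r : Fin d} (h : cl p ≠ cl r) : pv (e p) (e r) ∈ K := by
  obtain ⟨q, hpq, h1⟩ := exists_mate hd p
  have hom := om_abs p r
  have h2 : om p r * om p r = 1 := by
    rw [← abs_mul_abs_self, hom]; norm_num
  have h2c : (om p r : ℂ) * (om p r : ℂ) = 1 := by exact_mod_cast h2
  have hv : ∀ s : ℂ, ‖s‖ = 1 →
      pv (tri p q r 1 0 s) (tri p q r 1 0 (-(om p r : ℂ) * star s)) ∈ K := by
    intro s hs
    apply hK
    rw [qfM_tri hpq h1 h]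
    have e1 : s * (-(om p r : ℂ) * star s) = ((-(om p r) : ℝ) : ℂ) := by
      have : s * star s = 1 := by
        rw [Complex.star_def, Complex.mul_conj, Complex.normSq_eq_norm_sq, hs]; norm_num
      push_cast
      linear_combination (-(om p r : ℂ)) * this
    rw [e1]
    simp only [norm_mul, norm_neg, norm_star, hs, Complex.norm_real, Real.norm_eq_abs, hom]
    simp
    nlinarith
  have a1 := hv 1 (by simp)
  have a2 := hv (-1) (by simp)
  have a3 := hv Complex.I (by simp)
  have a4 := hv (-Complex.I) (by simp)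
  have hh : pv (e p) (e r) = (-(om p r : ℂ) / 4) •
      ((pv (tri p q r 1 0 1) (tri p q r 1 0 (-(om p r : ℂ) * star 1)) -
      pv (tri p q r 1 0 (-1)) (tri p q r 1 0 (-(om p r : ℂ) * star (-1)))) +
      Complex.I • (pv (tri p q r 1 0 Complex.I) (tri p q r 1 0 (-(om p r : ℂ) * star Complex.I)) -
      pv (tri p q r 1 0 (-Complex.I)) (tri p q r 1 0 (-(om p r : ℂ) * star (-Complex.I))))) := by
    ext ⟨x, y⟩
    simp only [pv, tri, Pi.add_apply, Pi.sub_apply, Pi.smul_apply, smul_eq_mul, star_one,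
      star_neg, Complex.star_def, Complex.conj_I]
    linear_combination (- e p x * e r y) * h2c +
      (1 / 2 * (om p r : ℂ) * (om p r : ℂ) * (e p x * e r y) +
        1 / 2 * (om p r : ℂ) * (e r x * e p y)) * Complex.I_sq
  rw [hh]
  exact K.smul_mem _ (K.add_mem (K.sub_mem a1 a2) (K.smul_mem _ (K.sub_mem a3 a4)))

lemma span_M (p : Fin d × Fin d) : (Pi.single p 1 : Fin d × Fin d → ℂ) ∈ K := by
  obtain ⟨x, y⟩ := p
  rw [single_pv]
  by_cases h : cl x = cl y
  · exact M1 hd hK h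
  · exact M2 hd hK h

end spanM

lemma KK_herm : (KK d)ᴴ = KK d := by
  ext p q
  simp only [KK, Matrix.conjTranspose_apply, Matrix.of_apply]
  by_cases h : p.1 = p.2 ∧ q.1 = q.2 ∧ cl p.1 ≠ cl q.1
  · rw [if_pos h, if_pos ⟨h.2.1, h.1, h.2.2.symm⟩, om_symm]
    simp
  · rw [if_neg h, if_neg]
    · simp
    · rintro ⟨h1, h2, h3⟩
      exact h ⟨h2, h1, h3.symm⟩

lemma W_herm : (Wt d).IsHermitian := by
  rw [Matrix.IsHermitian, Wt, Matrix.conjTranspose_sub, KK_herm, Matrix.diagonal_conjTranspose]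
  congr 2
  ext p
  simp only [Pi.star_apply]
  split_ifs <;> simp

lemma M_herm : (Mt d).IsHermitian := by
  rw [Matrix.IsHermitian, Mt, Matrix.conjTranspose_add, KK_herm, Matrix.diagonal_conjTranspose]
  congr 2
  ext p
  simp only [Pi.star_apply]
  split_ifs <;> simp

/-- values of the quadratic form on `x e_p ⊗ e_p + y e_q ⊗ e_q + z e_r ⊗ e_r` -/
lemma qf_three (A : Op d) {p q r : Fin d} (x y z : ℝ) :
    qf A ((x : ℂ) • Pi.single (p, p) 1 + (y : ℂ) • Pi.single (q, q) 1 +
      (z : ℂ) • Pi.single (r, r) 1) =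
      x * x * A (p, p) (p, p) + y * y * A (q, q) (q, q) + z * z * A (r, r) (r, r) +
      x * y * (A (p, p) (q, q) + A (q, q) (p, p)) + x * z * (A (p, p) (r, r) + A (r, r) (p, p)) +
      y * z * (A (q, q) (r, r) + A (r, r) (q, q)) := by
  have hs : star ((x : ℂ) • (Pi.single (p, p) 1 : Fin d × Fin d → ℂ) + (y : ℂ) • Pi.single (q, q) 1 +
      (z : ℂ) • Pi.single (r, r) 1) = (x : ℂ) • Pi.single (p, p) 1 + (y : ℂ) • Pi.single (q, q) 1 +
      (z : ℂ) • Pi.single (r, r) 1 := by
    ext t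
    simp only [Pi.star_apply, Pi.add_apply, Pi.smul_apply, smul_eq_mul, star_add, star_mul',
      Complex.star_def, Complex.conj_ofReal, Pi.single_apply]
    congr 1
    · congr 1
      · split_ifs <;> simp
      · split_ifs <;> simp
    · split_ifs <;> simp
  rw [qf, hs]
  simp only [Matrix.mulVec_add, Matrix.mulVec_smul, Matrix.mulVec_single_one, add_dotProduct,
    dotProduct_add, smul_dotProduct, dotProduct_smul, single_dotProduct, one_mul, smul_eq_mul,
    Matrix.col_apply]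
  ring

lemma W_neg (hd : 4 ≤ d) : ∃ v, (qf (Wt d) v).re < 0 := by
  refine ⟨((3 : ℝ) : ℂ) • Pi.single (ix hd 1 (by norm_num), ix hd 1 (by norm_num)) 1 +
    ((2 : ℝ) : ℂ) • Pi.single (ix hd 2 (by norm_num), ix hd 2 (by norm_num)) 1 +
    ((2 : ℝ) : ℂ) • Pi.single (ix hd 3 (by norm_num), ix hd 3 (by norm_num)) 1, ?_⟩
  rw [qf_three]
  simp [Wt, KK, cl, om, ix, Matrix.diagonal_apply]
  norm_num

lemma M_neg (hd : 4 ≤ d) : ∃ v, (qf (Mt d) v).re < 0 := by
  refine ⟨((1 : ℝ) : ℂ) • Pi.single (ix hd 1 (by norm_num), ix hd 1 (by norm_num)) 1 +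
    ((-1 : ℝ) : ℂ) • Pi.single (ix hd 2 (by norm_num), ix hd 2 (by norm_num)) 1 +
    ((0 : ℝ) : ℂ) • Pi.single (ix hd 3 (by norm_num), ix hd 3 (by norm_num)) 1, ?_⟩
  rw [qf_three]
  simp [Mt, KK, cl, om, ix, Matrix.diagonal_apply]

lemma W_opt (hd : 4 ≤ d) : IsOptimalEW (Wt d) := by
  obtain ⟨v, hv⟩ := W_neg hd
  exact optimal_of W_herm W_pos hv fun K hK p => span_W hd K hK p

lemma M_opt (hd : 4 ≤ d) : IsOptimalEW (Mt d) := by
  obtain ⟨v, hv⟩ := M_neg hd
  exact optimal_of M_herm M_pos hv fun K hK p => span_M hd hK p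

lemma W_add_M : Wt d + Mt d =
    (1 : ℝ) • ((1 : Matrix (Fin d) (Fin d) ℂ) ⊗ₖ (1 : Matrix (Fin d) (Fin d) ℂ)) := by
  rw [one_smul, Matrix.one_kronecker_one, Wt, Mt]
  ext p q
  simp only [Matrix.sub_apply, Matrix.add_apply, Matrix.diagonal_apply, Matrix.one_apply]
  by_cases h : p = q
  · subst h
    by_cases h2 : cl p.1 = cl p.2
    · simp [h2]
    · simp [h2]
  · simp [h]

lemma pt_pos {Q : Op d} (hQ : Q.PosSemidef) (a b : Fin d → ℂ) :
    0 ≤ (qf (partialTranspose Q) (pv a b)).re := by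
  have e : qf (partialTranspose Q) (pv a b) = qf Q (pv a (star b)) := by
    simp only [qf, dotProduct, Matrix.mulVec, Fintype.sum_prod_type, Finset.mul_sum,
      partialTranspose, Matrix.of_apply, pv, Pi.star_apply, star_mul', star_star]
    refine Finset.sum_congr rfl fun i _ => ?_
    have sw : ∀ F : Fin d → Fin d → Fin d → ℂ, (∑ k, ∑ j, ∑ l, F k j l) =
        ∑ k, ∑ j, ∑ l, F l j k := by
      intro F
      calc (∑ k, ∑ j, ∑ l, F k j l) = ∑ j, ∑ k, ∑ l, F k j l := Finset.sum_comm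
        _ = ∑ j, ∑ l, ∑ k, F k j l := Finset.sum_congr rfl fun j _ => Finset.sum_comm
        _ = ∑ l, ∑ j, ∑ k, F k j l := Finset.sum_comm
    rw [sw]
    refine Finset.sum_congr rfl fun k _ => Finset.sum_congr rfl fun j _ =>
      Finset.sum_congr rfl fun l _ => ?_
    ring
  rw [e]
  exact (Complex.le_def.mp (hQ.dotProduct_mulVec_nonneg _)).1

lemma W_nondec (hd : 4 ≤ d) : ¬ IsDecomposable (Wt d) := by
  rintro ⟨P, Q, hP, hQ, hW⟩
  have hPz : P = 0 := by
    have key : ∀ a b, (qf (Wt d) (pv a b)).re = 0 →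
        pv a b ∈ LinearMap.ker (Matrix.mulVecLin P) := by
      intro a b h0
      rw [LinearMap.mem_ker, Matrix.mulVecLin_apply]
      rw [hW, qf_add, Complex.add_re] at h0
      have h1 := pt_pos hQ a b
      have h3 := Complex.le_def.mp (hP.dotProduct_mulVec_nonneg (pv a b))
      have h5 : star (pv a b) ⬝ᵥ P *ᵥ pv a b = 0 := by
        apply Complex.ext
        · have h31 := h3.1
          simp only [Complex.zero_re] at h31 ⊢
          rw [qf] at h0
          linarith
        · simpa using h3.2.symm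
      exact (hP.dotProduct_mulVec_zero_iff _).mp h5
    have hall := span_W hd _ key
    ext p q
    have := hall q
    rw [LinearMap.mem_ker, Matrix.mulVecLin_apply] at this
    have h := congrFun this p
    simpa using h
  rw [hPz, zero_add] at hW
  have hQW : Q = partialTranspose (Wt d) := by
    rw [hW]
    ext p q
    simp [partialTranspose]
  set a := ix hd 1 (by norm_num)
  set b := ix hd 3 (by norm_num)
  have hneg : (qf Q (Pi.single (a, b) 1 + Pi.single (b, a) 1)).re < 0 := by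
    have hs : star ((Pi.single (a, b) 1 : Fin d × Fin d → ℂ) + Pi.single (b, a) 1) =
        Pi.single (a, b) 1 + Pi.single (b, a) 1 := by
      ext t
      simp only [Pi.star_apply, Pi.add_apply, star_add, Pi.single_apply]
      congr 1 <;> split_ifs <;> simp
    rw [qf, hs, hQW]
    simp only [Matrix.mulVec_add, Matrix.mulVec_single_one, add_dotProduct,
      dotProduct_add, single_dotProduct, one_mul, Matrix.col_apply]
    simp [partialTranspose, Wt, KK, cl, om, ix, Matrix.diagonal_apply, a, b]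
  have hnn := (Complex.le_def.mp (hQ.dotProduct_mulVec_nonneg
    (Pi.single (a, b) 1 + Pi.single (b, a) 1))).1
  rw [qf] at hneg
  simp only [Complex.zero_re] at hnn
  linarith

end construction

/-- For every `d ≥ 4` there is a mirrored pair of optimal entanglement witnesses on
`ℂ^d ⊗ ℂ^d`; moreover one of the two is non-decomposable. -/
theorem result : ∀ d : ℕ, 4 ≤ d → ∃ W M : Op d, IsMirroredOptimalPair W M ∧ ¬ IsDecomposable W :=
  fun d hd => ⟨Wt d, Mt d, ⟨W_opt hd, M_opt hd, 1, W_add_M⟩, W_nondec hd⟩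

end Pool.Agent.Results.MP_709dca_mp.MirroredPairs
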